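import Mathlib

/-!
# The spheres of `C[0,1]` admit no smooth blid maps

Let `S_r` be the sphere of radius `r` of the real Banach space `X = C[0,1]`. A `C^q` blid map at
`S_r` for a neighbourhood `U` of `S_r` is a `C^q` map `H : X → X` with `H(X) ⊆ U` which is the
identity near `S_r`. We show that for no `q ≥ 1` does the sphere `S_r` admit `C^q` blid maps.

The proof. Let `U = {x : ‖x‖ > r / 2}`, and let `H` be a `C^1` blid map at `S_r` for `U`. Then
`G(x) = H(x) - x` for `‖x‖ ≤ r`, `G(x) = 0` for `‖x‖ > r`, is a differentiable map with bounded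
support and `G(0) = H(0) ≠ 0`. So a coordinate `x ↦ ± G(x)(τ)` is a Fréchet differentiable real
function `f` on `C[0,1]` with bounded support and `f(0) > 0`. There is no such function: on
`{‖x‖ ≤ R + 1}` consider the relation `‖y - x‖ ≤ 2 (‖y‖ - ‖x‖)`, `f x - f y ≤ ε (‖y‖ - ‖x‖)`. By
completeness there is a maximal `z` above `0`, and then `f z > 0`, `‖z‖ ≤ R`. But for small `t` one
finds `v` with `‖v‖ ≤ 1`, `f'(z) v = 0` and `‖z + t v‖ ≥ ‖z‖ + t / 2` among the combinations of two
disjoint narrow bumps near a point at which `|z|` is maximal, and `z + t v` is above `z`.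
-/

set_option autoImplicit false

open Set Filter Topology

namespace Pool.Agent.Results.MP_a52dbe_an.NoBlidMap

/-- The real Banach space `C[0,1]` of the continuous functions on `[0,1]`, with the sup norm. -/
abbrev X : Type := C(↥(Set.Icc (0 : ℝ) 1), ℝ)

/-- `H` is a `C^q` blid map at `S` for `U`: a `C^q` map of `C[0,1]` to itself with values in `U`,
equal to the identity on a neighbourhood of `S`. -/
def IsBlidMap (q : WithTop ℕ∞) (S U : Set X) (H : X → X) : Prop :=
  ContDiff ℝ q H ∧ (∀ x, H x ∈ U) ∧ ∃ V : Set X, IsOpen V ∧ S ⊆ V ∧ V ⊆ U ∧ ∀ x ∈ V, H x = x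

/-- `S` admits `C^q` blid maps: for every neighbourhood `U` of `S` there is a `C^q` blid map at `S`
for `U`. -/
def AdmitsBlidMaps (q : WithTop ℕ∞) (S : Set X) : Prop :=
  ∀ U : Set X, IsOpen U → S ⊆ U → ∃ H : X → X, IsBlidMap q S U H

/-- The sphere of radius `r` of `C[0,1]`. -/
def sphere (r : ℝ) : Set X := {x : X | ‖x‖ = r}

/-! ### A maximality principle -/

theorem exists_maximal {E : Type} [MetricSpace E] [CompleteSpace E] (Rel : E → E → Prop)
    (φ : E → ℝ) (hφ : Continuous φ) (M : ℝ)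
    (hdist : ∀ x y, Rel x y → dist x y ≤ 2 * (φ y - φ x))
    (htrans : ∀ x y z, Rel x y → Rel y z → Rel x z)
    (hrefl : ∀ x y, Rel x y → Rel y y)
    (hclosed : ∀ x, IsClosed {y | Rel x y})
    (hM : ∀ x y, Rel x y → φ y ≤ M) (x0 : E) (h0 : Rel x0 x0) :
    ∃ z, Rel x0 z ∧ ∀ w, Rel z w → w = z := by
  classical
  have step : ∀ x : {x // Rel x0 x}, ∃ y : {x // Rel x0 x}, Rel x.1 y.1 ∧
      ∀ w, Rel x.1 w → φ w ≤ 2 * φ y.1 - φ x.1 := by
    rintro ⟨x, hx⟩
    have hne : (φ '' {y | Rel x y}).Nonempty := ⟨φ x, x, hrefl _ _ hx, rfl⟩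
    have hbd : BddAbove (φ '' {y | Rel x y}) := by
      refine ⟨M, ?_⟩
      rintro _ ⟨y, hy, rfl⟩
      exact hM _ _ hy
    by_cases hs : φ x < sSup (φ '' {y | Rel x y})
    · have hlt : (φ x + sSup (φ '' {y | Rel x y})) / 2 < sSup (φ '' {y | Rel x y}) := by linarith
      obtain ⟨_, ⟨y, hy, rfl⟩, hy2⟩ := exists_lt_of_lt_csSup hne hlt
      refine ⟨⟨y, htrans _ _ _ hx hy⟩, hy, ?_⟩
      intro w hw
      have := le_csSup hbd ⟨w, hw, rfl⟩
      dsimp only
      linarith
    · refine ⟨⟨x, hx⟩, hrefl _ _ hx, ?_⟩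
      intro w hw
      have := le_csSup hbd ⟨w, hw, rfl⟩
      dsimp only
      linarith
  choose nxt hn1 hn2 using step
  let u : ℕ → {x // Rel x0 x} := fun n => Nat.rec ⟨x0, h0⟩ (fun _ x => nxt x) n
  have hu : ∀ n, u (n + 1) = nxt (u n) := fun n => rfl
  have hstep : ∀ n, Rel (u n).1 (u (n + 1)).1 := fun n => by rw [hu]; exact hn1 _
  have hrel : ∀ n k, Rel (u n).1 (u (n + k)).1 := by
    intro n k
    induction k with
    | zero => exact hrefl _ _ (u n).2
    | succ k ih => exact htrans _ _ _ ih (hstep (n + k))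
  have hC : ∀ x y, Rel x y → φ x ≤ φ y := by
    intro x y h
    have h1 := hdist x y h
    have h2 : 0 ≤ dist x y := dist_nonneg
    linarith
  have hmono : Monotone (fun n => φ (u n).1) := by
    apply monotone_nat_of_le_succ
    intro n
    exact hC _ _ (hstep n)
  have hbdd : BddAbove (range (fun n => φ (u n).1)) := by
    refine ⟨M, ?_⟩
    rintro _ ⟨n, rfl⟩
    exact hM _ _ (u n).2
  have hlim := tendsto_atTop_ciSup hmono hbdd
  have hcauchy : CauchySeq (fun n => (u n).1) := by
    refine cauchySeq_of_le_tendsto_0' (fun n => 2 * ((⨆ i, φ (u i).1) - φ (u n).1)) ?_ ?_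
    · intro n m hnm
      obtain ⟨k, rfl⟩ := Nat.exists_eq_add_of_le hnm
      refine (hdist _ _ (hrel n k)).trans ?_
      have := le_ciSup hbdd (n + k)
      linarith
    · have := (tendsto_const_nhds (x := ⨆ i, φ (u i).1)).sub hlim |>.const_mul 2
      simpa using this
  obtain ⟨z, hz⟩ := cauchySeq_tendsto_of_complete hcauchy
  have hrelz : ∀ n, Rel (u n).1 z := by
    intro n
    have h1 : Tendsto (fun k => (u (k + n)).1) atTop (𝓝 z) := (tendsto_add_atTop_iff_nat n).2 hz
    refine (hclosed (u n).1).mem_of_tendsto h1 (Eventually.of_forall fun k => ?_)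
    rw [add_comm]
    exact hrel n k
  refine ⟨z, hrelz 0, ?_⟩
  intro w hw
  have hphi : Tendsto (fun n => φ (u n).1) atTop (𝓝 (φ z)) := (hφ.tendsto z).comp hz
  have h2 : Tendsto (fun n => 2 * φ (u (n + 1)).1 - φ (u n).1) atTop (𝓝 (2 * φ z - φ z)) :=
    (((tendsto_add_atTop_iff_nat 1).2 hphi).const_mul 2).sub hphi
  have h3 : φ w ≤ 2 * φ z - φ z :=
    ge_of_tendsto' h2 fun n => by
      have := hn2 (u n) w (htrans _ _ _ (hrelz n) hw)
      rw [hu]
      exact this
  have h4 := hdist z w hw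
  have h5 : dist z w ≤ 0 := by linarith
  exact (dist_le_zero.1 h5).symm

/-! ### The local step -/

/-- A combination of two disjoint narrow bumps in the kernel of a functional. -/
theorem exists_direction (L : X →L[ℝ] ℝ) (t1 : ↥(Set.Icc (0 : ℝ) 1)) (η : ℝ) (hη : 0 < η) :
    ∃ v : X, ‖v‖ ≤ 1 ∧ L v = 0 ∧ ∃ τ : ↥(Set.Icc (0 : ℝ) 1), dist τ t1 < η ∧ |v τ| = 1 := by
  -- two distinct points near `t1`
  obtain ⟨a, b, hab, ha, hb⟩ : ∃ a b : ↥(Set.Icc (0 : ℝ) 1), a ≠ b ∧ dist a t1 < η ∧
      dist b t1 < η := by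
    rcases le_total (t1 : ℝ) (1 / 2) with h | h
    · refine ⟨t1, ⟨t1 + min (η / 2) (1 / 2), ?_, ?_⟩, ?_, ?_, ?_⟩
      · have : 0 < min (η / 2) (1 / 2) := lt_min (by linarith) (by norm_num)
        linarith [t1.2.1]
      · have : min (η / 2) (1 / 2) ≤ 1 / 2 := min_le_right _ _
        linarith
      · intro he
        have h1 := congrArg Subtype.val he
        have : 0 < min (η / 2) (1 / 2) := lt_min (by linarith) (by norm_num)
        dsimp only at h1
        linarith
      · simpa using hη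
      · have h0 : 0 < min (η / 2) (1 / 2) := lt_min (by linarith) (by norm_num)
        have h1 : min (η / 2) (1 / 2) ≤ η / 2 := min_le_left _ _
        rw [Subtype.dist_eq, Real.dist_eq]
        dsimp only
        rw [show (t1 : ℝ) + min (η / 2) (1 / 2) - t1 = min (η / 2) (1 / 2) by ring, abs_of_pos h0]
        linarith
    · refine ⟨t1, ⟨t1 - min (η / 2) (1 / 2), ?_, ?_⟩, ?_, ?_, ?_⟩
      · have : min (η / 2) (1 / 2) ≤ 1 / 2 := min_le_right _ _
        linarith
      · have : 0 < min (η / 2) (1 / 2) := lt_min (by linarith) (by norm_num)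
        linarith [t1.2.2]
      · intro he
        have h1 := congrArg Subtype.val he
        have : 0 < min (η / 2) (1 / 2) := lt_min (by linarith) (by norm_num)
        dsimp only at h1
        linarith
      · simpa using hη
      · have h0 : 0 < min (η / 2) (1 / 2) := lt_min (by linarith) (by norm_num)
        have h1 : min (η / 2) (1 / 2) ≤ η / 2 := min_le_left _ _
        rw [Subtype.dist_eq, Real.dist_eq]
        dsimp only
        rw [show (t1 : ℝ) - min (η / 2) (1 / 2) - t1 = - min (η / 2) (1 / 2) by ring, abs_neg,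
          abs_of_pos h0]
        linarith
  have hd : 0 < dist a b := dist_pos.2 hab
  -- the bumps
  let bump : ↥(Set.Icc (0 : ℝ) 1) → X := fun c => ⟨fun x => max 0 (1 - 2 * dist x c / dist a b),
    by fun_prop⟩
  have hbump : ∀ c x, bump c x = max 0 (1 - 2 * dist x c / dist a b) := fun c x => rfl
  have hself : ∀ c, bump c c = 1 := by
    intro c
    rw [hbump, dist_self]
    simp
  have h0 : ∀ c x, 0 ≤ bump c x := fun c x => by rw [hbump]; exact le_max_left _ _
  have h1 : ∀ c x, bump c x ≤ 1 := fun c x => by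
    rw [hbump]
    refine max_le (by norm_num) ?_
    have : 0 ≤ 2 * dist x c / dist a b := by positivity
    linarith
  have hdisj : ∀ x, bump a x = 0 ∨ bump b x = 0 := by
    intro x
    by_contra hcon
    push Not at hcon
    have key : ∀ c, bump c x ≠ 0 → 2 * dist x c < dist a b := by
      intro c hc
      by_contra hle
      push Not at hle
      apply hc
      rw [hbump]
      apply max_eq_left
      have : 1 ≤ 2 * dist x c / dist a b := by
        rw [le_div_iff₀ hd]
        linarith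
      linarith
    have k1 := key a hcon.1
    have k2 := key b hcon.2
    have k3 := dist_triangle_left a b x
    linarith
  -- the coefficients
  obtain ⟨p, q, hL, hp, hq, hpq⟩ : ∃ p q : ℝ, p * L (bump a) + q * L (bump b) = 0 ∧ |p| ≤ 1 ∧
      |q| ≤ 1 ∧ (|p| = 1 ∨ |q| = 1) := by
    by_cases hz : L (bump a) = 0
    · exact ⟨1, 0, by simp [hz], by simp, by simp, by simp⟩
    · rcases le_total |L (bump a)| |L (bump b)| with hle | hle
      · have hb0 : 0 < |L (bump b)| := lt_of_lt_of_le (abs_pos.2 hz) hle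
        have hb1 : L (bump b) ≠ 0 := abs_pos.1 hb0
        refine ⟨1, - L (bump a) / L (bump b), ?_, by simp, ?_, by simp⟩
        · field_simp
          ring
        · rw [abs_div, abs_neg, div_le_one hb0]
          exact hle
      · have ha0 : 0 < |L (bump a)| := abs_pos.2 hz
        refine ⟨- L (bump b) / L (bump a), 1, ?_, ?_, by simp, by simp⟩
        · field_simp
          ring
        · rw [abs_div, abs_neg, div_le_one ha0]
          exact hle
  have hba : bump b a = 0 := by
    rcases hdisj a with h | h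
    · rw [hself] at h
      norm_num at h
    · exact h
  have hab' : bump a b = 0 := by
    rcases hdisj b with h | h
    · exact h
    · rw [hself] at h
      norm_num at h
  refine ⟨p • bump a + q • bump b, ?_, ?_, ?_⟩
  · rw [ContinuousMap.norm_le _ zero_le_one]
    intro x
    rw [ContinuousMap.add_apply, ContinuousMap.smul_apply, ContinuousMap.smul_apply, smul_eq_mul,
      smul_eq_mul, Real.norm_eq_abs]
    rcases hdisj x with h | h
    · rw [h, mul_zero, zero_add, abs_mul, abs_of_nonneg (h0 b x)]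
      exact mul_le_one₀ hq (h0 b x) (h1 b x)
    · rw [h, mul_zero, add_zero, abs_mul, abs_of_nonneg (h0 a x)]
      exact mul_le_one₀ hp (h0 a x) (h1 a x)
  · rw [map_add, map_smul, map_smul, smul_eq_mul, smul_eq_mul, hL]
  · rcases hpq with h | h
    · refine ⟨a, ha, ?_⟩
      rw [ContinuousMap.add_apply, ContinuousMap.smul_apply, ContinuousMap.smul_apply, smul_eq_mul,
        smul_eq_mul, hself, hba, mul_zero, mul_one, add_zero, h]
    · refine ⟨b, hb, ?_⟩
      rw [ContinuousMap.add_apply, ContinuousMap.smul_apply, ContinuousMap.smul_apply, smul_eq_mul,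
        smul_eq_mul, hself, hab', mul_zero, mul_one, zero_add, h]

/-- The local step: a differentiable function can be moved in a direction in which the norm grows
linearly and the function is almost stationary. -/
theorem local_step (f : X → ℝ) (z : X) (hf : DifferentiableAt ℝ f z) (ε : ℝ) (hε : 0 < ε) :
    ∃ y : X, ‖z‖ < ‖y‖ ∧ ‖y‖ ≤ ‖z‖ + 1 ∧ ‖y - z‖ ≤ 2 * (‖y‖ - ‖z‖) ∧
      f z - f y ≤ ε * (‖y‖ - ‖z‖) := by
  obtain ⟨L, hL⟩ := hf
  have hlit := hL.isLittleO.def (c := ε / 2) (by positivity)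
  rw [Metric.eventually_nhds_iff] at hlit
  obtain ⟨δ, hδ, hlit⟩ := hlit
  set t : ℝ := min (δ / 2) 1 with ht
  have ht0 : 0 < t := lt_min (by linarith) one_pos
  have ht1 : t ≤ 1 := min_le_right _ _
  have htδ : t < δ := lt_of_le_of_lt (min_le_left _ _) (by linarith)
  -- a point of maximal modulus
  obtain ⟨t1, ht1'⟩ : ∃ t1 : ↥(Set.Icc (0 : ℝ) 1), |z t1| = ‖z‖ := by
    obtain ⟨t1, -, h1⟩ := isCompact_univ.exists_isMaxOn (s := (Set.univ : Set ↥(Set.Icc (0 : ℝ) 1)))
      ⟨⟨0, by simp⟩, mem_univ _⟩ (f := fun τ => |z τ|) (by fun_prop)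
    refine ⟨t1, le_antisymm (z.norm_coe_le_norm t1) ?_⟩
    rw [ContinuousMap.norm_le _ (abs_nonneg _)]
    intro x
    exact h1 (mem_univ x)
  obtain ⟨s, hs, hst⟩ : ∃ s : ℝ, |s| = 1 ∧ s * z t1 = ‖z‖ := by
    rcases le_total 0 (z t1) with h | h
    · exact ⟨1, by simp, by rw [one_mul, ← ht1', abs_of_nonneg h]⟩
    · exact ⟨-1, by simp, by rw [← ht1', abs_of_nonpos h]; ring⟩
  obtain ⟨η, hη, hnear⟩ : ∃ η > 0, ∀ τ : ↥(Set.Icc (0 : ℝ) 1), dist τ t1 < η →
      ‖z‖ - t / 2 ≤ s * z τ := by
    have hc : ContinuousAt (fun τ => s * z τ) t1 := by fun_prop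
    have := (Metric.continuousAt_iff.1 hc) (t / 2) (by positivity)
    obtain ⟨η, hη, h⟩ := this
    refine ⟨η, hη, fun τ hτ => ?_⟩
    have h2 := h hτ
    rw [Real.dist_eq, hst, abs_lt] at h2
    linarith [h2.1]
  obtain ⟨v, hv1, hv2, τ, hτ, hvτ⟩ := exists_direction L t1 η hη
  -- the sign
  obtain ⟨σ, hσ, hσs⟩ : ∃ σ : ℝ, |σ| = 1 ∧ s * (σ * v τ) = 1 := by
    refine ⟨s * v τ, by rw [abs_mul, hs, hvτ, one_mul], ?_⟩
    have e1 : s * s = 1 := by rw [← abs_mul_abs_self, hs, one_mul]
    have e2 : v τ * v τ = 1 := by rw [← abs_mul_abs_self, hvτ, one_mul]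
    calc s * (s * v τ * v τ) = (s * s) * (v τ * v τ) := by ring
      _ = 1 := by rw [e1, e2, one_mul]
  have hnormlow : ‖z‖ + t / 2 ≤ ‖z + (t * σ) • v‖ := by
    have h1 := (z + (t * σ) • v).norm_coe_le_norm τ
    rw [ContinuousMap.add_apply, ContinuousMap.smul_apply, smul_eq_mul, Real.norm_eq_abs] at h1
    have h2 : s * (z τ + t * σ * v τ) ≤ |z τ + t * σ * v τ| := by
      calc s * (z τ + t * σ * v τ) ≤ |s * (z τ + t * σ * v τ)| := le_abs_self _
        _ = |z τ + t * σ * v τ| := by rw [abs_mul, hs, one_mul]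
    have h3 : s * (z τ + t * σ * v τ) = s * z τ + t * (s * (σ * v τ)) := by ring
    rw [h3, hσs, mul_one] at h2
    have h4 := hnear τ hτ
    linarith
  have hdiff : ‖(t * σ) • v‖ ≤ t := by
    rw [norm_smul, Real.norm_eq_abs, abs_mul, hσ, mul_one, abs_of_pos ht0]
    exact mul_le_of_le_one_right ht0.le hv1
  refine ⟨z + (t * σ) • v, by linarith, ?_, ?_, ?_⟩
  · have := norm_add_le z ((t * σ) • v)
    linarith
  · rw [add_sub_cancel_left]
    linarith
  · have h1 := hlit (y := z + (t * σ) • v) (by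
      rw [dist_eq_norm, add_sub_cancel_left]
      linarith)
    rw [add_sub_cancel_left, map_smul, hv2, smul_zero, sub_zero, Real.norm_eq_abs] at h1
    have h2 := (abs_le.1 h1).1
    have h3 : ε / 2 * ‖(t * σ) • v‖ ≤ ε / 2 * t := by
      apply mul_le_mul_of_nonneg_left hdiff (by positivity)
    have h4 : ε * (t / 2) ≤ ε * (‖z + (t * σ) • v‖ - ‖z‖) := by
      apply mul_le_mul_of_nonneg_left _ hε.le
      linarith
    nlinarith

/-- There is no Fréchet differentiable bump function on `C[0,1]`. -/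
theorem no_bump (f : X → ℝ) (hf : Differentiable ℝ f) (R : ℝ) (hR : 0 < R)
    (hsupp : ∀ x, R < ‖x‖ → f x = 0) : f 0 ≤ 0 := by
  by_contra hcon
  push Not at hcon
  set ε : ℝ := f 0 / (2 * (R + 1)) with hε
  have hε0 : 0 < ε := by positivity
  let Rel : X → X → Prop := fun x y => ‖y - x‖ ≤ 2 * (‖y‖ - ‖x‖) ∧
    f x - f y ≤ ε * (‖y‖ - ‖x‖) ∧ ‖y‖ ≤ R + 1
  obtain ⟨z, hz0, hzmax⟩ := exists_maximal Rel (fun x => ‖x‖) continuous_norm (R + 1)
    (fun x y h => by rw [dist_comm, dist_eq_norm]; exact h.1)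
    (fun x y w h1 h2 => by
      refine ⟨?_, ?_, h2.2.2⟩
      · have : ‖w - x‖ ≤ ‖w - y‖ + ‖y - x‖ := by
          have := norm_add_le (w - y) (y - x)
          rwa [sub_add_sub_cancel] at this
        linarith [h1.1, h2.1]
      · have := h1.2.1
        have := h2.2.1
        nlinarith)
    (fun x y h => ⟨by simp, by simp, h.2.2⟩)
    (fun x => by
      have hfc := hf.continuous
      have c1 : IsClosed {y : X | ‖y - x‖ ≤ 2 * (‖y‖ - ‖x‖)} :=
        isClosed_le (by fun_prop) (by fun_prop)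
      have c2 : IsClosed {y : X | f x - f y ≤ ε * (‖y‖ - ‖x‖)} :=
        isClosed_le (by fun_prop) (by fun_prop)
      have c3 : IsClosed {y : X | ‖y‖ ≤ R + 1} := isClosed_le (by fun_prop) (by fun_prop)
      exact c1.inter (c2.inter c3))
    (fun x y h => h.2.2) 0 ⟨by simp, by simp, by rw [norm_zero]; linarith⟩
  obtain ⟨-, h2, h3⟩ := hz0
  have hfz : 0 < f z := by
    rw [norm_zero, sub_zero] at h2
    have h4 : ε * ‖z‖ ≤ ε * (R + 1) := mul_le_mul_of_nonneg_left h3 hε0.le
    have h5 : ε * (R + 1) = f 0 / 2 := by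
      rw [hε]
      field_simp
    linarith
  have hzR : ‖z‖ ≤ R := by
    by_contra h
    push Not at h
    rw [hsupp z h] at hfz
    exact lt_irrefl _ hfz
  obtain ⟨y, hy1, hy2, hy3, hy4⟩ := local_step f z (hf z) ε hε0
  have := hzmax y ⟨hy3, hy4, by linarith⟩
  rw [this] at hy1
  exact lt_irrefl _ hy1

/-- **Main result.** For every `r > 0` and every `q ≥ 1` (finite, `∞`, or even `ω`) the sphere
`S_r` of `C[0,1]` does not admit `C^q` blid maps. -/
theorem result (r : ℝ) (hr : 0 < r) (q : WithTop ℕ∞) (hq : 1 ≤ q) :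
    ¬ AdmitsBlidMaps q (sphere r) := by
  intro hadm
  obtain ⟨H, hH, hHU, V, hVo, hSV, -, hV⟩ := hadm {x : X | r / 2 < ‖x‖}
    (isOpen_lt continuous_const continuous_norm)
    (fun x hx => by
      have : ‖x‖ = r := hx
      change r / 2 < ‖x‖
      linarith)
  have hHd : Differentiable ℝ H := hH.differentiable (by
    rintro rfl
    simp at hq)
  classical
  let G : X → X := fun x => if ‖x‖ ≤ r then H x - x else 0
  have hGd : Differentiable ℝ G := by
    intro x
    rcases lt_trichotomy ‖x‖ r with h | h | h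
    · have : G =ᶠ[𝓝 x] fun y => H y - y := by
        filter_upwards [(isOpen_lt continuous_norm continuous_const).mem_nhds h] with y hy
        exact if_pos (le_of_lt hy)
      exact ((hHd x).sub differentiableAt_id).congr_of_eventuallyEq this
    · have : G =ᶠ[𝓝 x] fun _ => 0 := by
        filter_upwards [hVo.mem_nhds (hSV h)] with y hy
        by_cases hyr : ‖y‖ ≤ r
        · change (if ‖y‖ ≤ r then H y - y else 0) = 0
          rw [if_pos hyr, hV y hy, sub_self]
        · exact if_neg hyr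
      exact (differentiableAt_const _).congr_of_eventuallyEq this
    · have : G =ᶠ[𝓝 x] fun _ => 0 := by
        filter_upwards [(isOpen_lt continuous_const continuous_norm).mem_nhds h] with y hy
        exact if_neg (not_le.2 hy)
      exact (differentiableAt_const _).congr_of_eventuallyEq this
  have hG0 : G 0 = H 0 := by
    change (if ‖(0 : X)‖ ≤ r then H 0 - 0 else 0) = H 0
    rw [if_pos (by rw [norm_zero]; exact hr.le), sub_zero]
  have hGR : ∀ x, r < ‖x‖ → G x = 0 := fun x hx => if_neg (not_le.2 hx)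
  have hne : H 0 ≠ 0 := by
    intro h
    have h1 : r / 2 < ‖H 0‖ := hHU 0
    rw [h, norm_zero] at h1
    linarith
  obtain ⟨τ, hτ⟩ : ∃ τ, H 0 τ ≠ 0 := by
    by_contra hall
    push Not at hall
    exact hne (ContinuousMap.ext hall)
  have hcoord : ∀ σ : ℝ, Differentiable ℝ (fun x => σ * G x τ) := by
    intro σ
    have h1 : Differentiable ℝ (fun x => (ContinuousMap.evalCLM ℝ τ : X →L[ℝ] ℝ) (G x)) :=
      (ContinuousLinearMap.differentiable _).comp hGd
    exact h1.const_mul σ
  have key : ∀ σ : ℝ, σ * H 0 τ ≤ 0 := by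
    intro σ
    have := no_bump (fun x => σ * G x τ) (hcoord σ) r hr (fun x hx => by
      rw [hGR x hx]
      simp)
    simpa only [hG0] using this
  have := key (H 0 τ)
  have h2 : 0 < H 0 τ * H 0 τ := mul_self_pos.2 hτ
  linarith

end Pool.Agent.Results.MP_a52dbe_an.NoBlidMap
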